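import Pool.Agent.H447R3.SpDefs
import Pool.Agent.H914R2.KDefs
import Pool.Agent.H914R2.HodgeDefs
import Pool.Agent.W534.PoleDefs
import Pool.Agent.Y163.Defs

/-!
# The growth of the ranks of the groups of cycles on the powers of a variety: definitions
-/

set_option autoImplicit false

open CategoryTheory AlgebraicGeometry Finset

universe u v

namespace Pool.Agent.J4H47.GC

open Pool.Agent.H914 VarClass Obj WeilCohomology Pool.Agent.H447 Pool.Agent.W534 Pool.Agent.Y163

variable {k : Type u} [Field k] {𝒱 : VarClass k} {ops : CycleOps 𝒱}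

/-- The value at `t` of the Poincaré polynomial of `X`, the sum of the `b_j t ^ j`, where `b_j` is
the dimension of `H^j(X)`. -/
noncomputable def poincare (W : WeilCohomology.{u, v} ops) (X : 𝒱.Obj) (t : ℝ) : ℝ :=
  ∑ j ∈ range (2 * X.dim + 1), (Module.finrank W.K (W.gr X j) : ℝ) * t ^ j

/-- The value at `t` of the numerical Poincaré polynomial of `Y`, the sum of the `r_c t ^ (2 c)`,
where `r_c` is the rank of the group of the cycles of codimension `c` modulo numerical
equivalence. -/
noncomputable def numPoincare (ops : CycleOps 𝒱) (Y : 𝒱.Obj) (t : ℝ) : ℝ :=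
  ∑ c ∈ range (Y.dim + 1), (numRank ops Y c : ℝ) * t ^ (2 * c)

/-- The Künneth conjecture C for `X` with coefficients in `K`, the coefficient field of `W`: the
projector onto `H^i(X)` is induced by a `K`-linear combination of classes of cycles. -/
def KunnethSpan (W : WeilCohomology.{u, v} ops) (X : 𝒱.Obj) : Prop :=
  ∀ i, ∃ γ ∈ spanCycles W (X.prod X) X.dim, ∀ j, ∀ a ∈ W.gr X j,
    W.corr γ a = if j = i then a else 0

/-- The numerical Poincaré polynomials of the powers `X ^ (n + 1)` grow at `t` as fast as the
powers of the Poincaré polynomial of `X`, on the exponential scale. -/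
def FullGrowth (W : WeilCohomology.{u, v} ops) (X : 𝒱.Obj) (t : ℝ) : Prop :=
  ∀ R, 0 ≤ R → R < poincare W X t → ∃ n, R ^ (n + 1) < numPoincare ops (pw X n) t

end Pool.Agent.J4H47.GC
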