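import Pool.Agent.J4H47.GC.Loc
import Pool.Agent.J4H47.GC.Defs
import Pool.Agent.J4H44.BM.Kun

/-!
# The growth bound over arbitrary coefficient fields
-/

set_option autoImplicit false

open CategoryTheory AlgebraicGeometry Finset Module TensorProduct

universe u v

namespace Pool.Agent.J4H47.GC

open Pool.Agent.H914 VarClass Obj WeilCohomology Pool.Agent.H447 Pool.Agent.Y163
  Pool.Agent.W534

variable {k : Type u} [Field k] {𝒱 : VarClass k} {ops : CycleOps 𝒱}
  {W : WeilCohomology.{u, v} ops} {X Y Z : 𝒱.Obj}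

section Base

variable (L : Type v) [Field L] [Algebra W.K L]

lemma proj_base (m : ℕ) : proj ((baseW W L).isInternal X) m =
    ((proj (W.isInternal X) m).baseChange L : L ⊗[W.K] W.H X →ₗ[L] L ⊗[W.K] W.H X) := by
  apply LinearMap.ext
  intro x
  refine gr_induction ((baseW W L).isInternal X) (p := fun x => proj ((baseW W L).isInternal X) m x =
    (proj (W.isInternal X) m).baseChange L x) ?_ ?_ x
  · intro i a ha
    have ha1 : a ∈ (W.gr X i).baseChange L := ha
    rw [Submodule.baseChange_eq_span] at ha1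
    have h0 : proj ((baseW W L).isInternal X) m a = (if i = m then (1 : (baseW W L).K) else 0) • a :=
      scal_apply ((baseW W L).isInternal X) _ ha
    rw [h0]
    clear h0 ha
    change (if i = m then (1 : L) else 0) • (show L ⊗[W.K] W.H X from a) =
      (proj (W.isInternal X) m).baseChange L (show L ⊗[W.K] W.H X from a)
    change (show L ⊗[W.K] W.H X from a) ∈ _ at ha1
    generalize (show L ⊗[W.K] W.H X from a) = y at ha1 ⊢
    induction ha1 using Submodule.span_induction with
    | mem x hx =>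
      obtain ⟨c, hc, rfl⟩ := hx
      have h1 : proj (W.isInternal X) m c = (if i = m then (1 : W.K) else 0) • c :=
        scal_apply _ _ hc
      rw [TensorProduct.mk_apply, LinearMap.baseChange_tmul, h1]
      split_ifs
      · rw [one_smul, one_smul]
      · rw [zero_smul, zero_smul, TensorProduct.tmul_zero]
    | zero => rw [smul_zero, map_zero]
    | add x y hx' hy' hx hy =>
      rw [smul_add, map_add, hx, hy]
    | smul c x hx' hx =>
      rw [smul_comm, hx, map_smul]
  · intro a b ha hb
    rw [map_add, ha, hb]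
    exact (map_add ((proj (W.isInternal X) m).baseChange L) a b).symm

/-- The operator on `H(X)` given by an operator on `L ⊗ H(X)` and a functional on `L`. -/
noncomputable def down (ρ : L →ₗ[W.K] W.K) (c : L)
    (T : L ⊗[W.K] W.H X →ₗ[L] L ⊗[W.K] W.H X) : Module.End W.K (W.H X) :=
  (TensorProduct.lid W.K (W.H X)).toLinearMap ∘ₗ (ρ.rTensor (W.H X)) ∘ₗ
    ((c • T).restrictScalars W.K) ∘ₗ (TensorProduct.mk W.K L (W.H X) 1)

lemma down_apply (ρ : L →ₗ[W.K] W.K) (c : L) (T : L ⊗[W.K] W.H X →ₗ[L] L ⊗[W.K] W.H X)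
    (a : W.H X) : down L ρ c T a =
      TensorProduct.lid W.K (W.H X) (ρ.rTensor (W.H X) (c • T (1 ⊗ₜ[W.K] a))) := rfl

lemma down_base (ρ : L →ₗ[W.K] W.K) (c : L) (F : Module.End W.K (W.H X)) :
    down L ρ c (F.baseChange L) = ρ c • F := by
  apply LinearMap.ext
  intro a
  rw [down_apply, LinearMap.baseChange_tmul, TensorProduct.smul_tmul', LinearMap.rTensor_tmul,
    TensorProduct.lid_tmul, smul_eq_mul, mul_one]
  rfl

/-- Descent of algebraic operators. -/
lemma down_mem (ρ : L →ₗ[W.K] W.K) {T : Module.End (baseW W L).K ((baseW W L).H X)}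
    (hT : T ∈ KOp (baseW W L) X X 0) : ∀ c : L, down L ρ c T ∈ KOp W X X 0 := by
  induction hT using Submodule.span_induction with
  | mem x hx =>
    obtain ⟨p, hp, z, hz, rfl⟩ := hx
    intro c
    have h1 : (baseW W L).corr ((baseW W L).cl _ z) = (W.corr (W.cl _ z)).baseChange L :=
      corrOp_base (L := L) (W.map (fst X X)) (W.push (snd X X)) (W.cl _ z)
    have h2 : down L ρ c ((baseW W L).corr ((baseW W L).cl _ z)) =
        ρ c • W.corr (W.cl _ z) := by
      rw [← down_base]
      exact congrArg (down L ρ c) h1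
    rw [h2]
    exact Submodule.smul_mem _ _ (KOp.gen hp hz)
  | zero =>
    intro c
    have h1 : down L ρ c (0 : L ⊗[W.K] W.H X →ₗ[L] L ⊗[W.K] W.H X) = 0 := by
      apply LinearMap.ext
      intro a
      rw [down_apply, LinearMap.zero_apply, smul_zero, map_zero, map_zero]
      rfl
    have h2 : down L ρ c (0 : Module.End (baseW W L).K ((baseW W L).H X)) = 0 := h1
    rw [h2]
    exact Submodule.zero_mem _
  | add x y _ _ hx hy =>
    intro c
    have h1 : ∀ (x y : L ⊗[W.K] W.H X →ₗ[L] L ⊗[W.K] W.H X), down L ρ c (x + y) =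
        down L ρ c x + down L ρ c y := by
      intro x y
      apply LinearMap.ext
      intro a
      rw [LinearMap.add_apply, down_apply, down_apply, down_apply, LinearMap.add_apply, smul_add,
        map_add, map_add]
    have h2 : down L ρ c (x + y) = down L ρ c x + down L ρ c y := h1 x y
    rw [h2]
    exact Submodule.add_mem _ (hx c) (hy c)
  | smul d x _ hx =>
    intro c
    have h1 : ∀ (x : L ⊗[W.K] W.H X →ₗ[L] L ⊗[W.K] W.H X) (d : L), down L ρ c (d • x) =
        down L ρ (c * d) x := by
      intro x d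
      apply LinearMap.ext
      intro a
      rw [down_apply, down_apply, LinearMap.smul_apply, smul_smul]
    have h2 : down L ρ c (d • x) = down L ρ (c * (show L from d)) x := h1 x d
    rw [h2]
    exact hx (c * (show L from d))

lemma proj_mem_of_base {m : ℕ}
    (h : proj ((baseW W L).isInternal X) m ∈ KOp (baseW W L) X X 0) :
    proj (W.isInternal X) m ∈ KOp W X X 0 := by
  obtain ⟨ρ, hρ⟩ := (Algebra.linearMap W.K L).exists_leftInverse_of_injective
    (by
      rw [LinearMap.ker_eq_bot]
      exact (algebraMap W.K L).injective)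
  have h1 := down_mem L ρ h 1
  have h2 : down L ρ 1 (proj ((baseW W L).isInternal X) m) =
      ρ 1 • proj (W.isInternal X) m := by
    rw [← down_base]
    exact congrArg (down L ρ 1) (proj_base L m)
  replace h1 : ρ 1 • proj (W.isInternal X) m ∈ KOp W X X 0 := by
    rw [← h2]
    exact h1
  have h3 : ρ 1 = 1 := by
    have := LinearMap.congr_fun hρ 1
    simpa using this
  rwa [h3, one_smul] at h1

end Base

lemma poincare_base (L : Type v) [Field L] [Algebra W.K L] [CharZero L] (t : ℝ) :
    poincare (baseW W L) X t = poincare W X t := by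
  unfold poincare
  refine Finset.sum_congr rfl fun j _ => ?_
  have h1 : finrank (baseW W L).K ((baseW W L).gr X j) = finrank W.K (W.gr X j) :=
    Pool.Agent.R940.finrank_base L (W.gr X j)
  rw [h1]

lemma kunnethSpan_iff : KunnethSpan W X ↔ ∀ j, proj (W.isInternal X) j ∈ KOp W X X 0 := by
  constructor
  · intro h j
    obtain ⟨γ, hγ, h1⟩ := h j
    rw [mem_KOp_iff]
    refine ⟨γ, by rw [add_zero]; exact hγ, ?_⟩
    apply gr_ext (W.isInternal X)
    intro i a ha
    rw [h1 i a ha, proj, scal_apply _ _ ha]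
    split_ifs <;> simp
  · intro h j
    obtain ⟨γ, hγ, h1⟩ := mem_KOp_iff.1 (h j)
    refine ⟨γ, by rw [add_zero] at hγ; exact hγ, fun i a ha => ?_⟩
    rw [h1, proj, scal_apply _ _ ha]
    split_ifs <;> simp

/-- **The growth bound.** -/
theorem main_any (hS : SignStd W X) (hC : ¬ KunnethSpan W X) {t : ℝ} (ht : 0 < t) (ht1 : t ≠ 1) :
    ∃ R : ℝ, 0 ≤ R ∧ R < poincare W X t ∧ ∀ n, numPoincare ops (pw X n) t ≤ R ^ (n + 1) := by
  have hpar : par (W.isInternal X) ∈ KOp W X X 0 :=
    Pool.Agent.J4H44.BM.ROp.kr (par_rop_of_sign hS)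
  rw [kunnethSpan_iff] at hC
  push Not at hC
  obtain ⟨j, hj⟩ := hC
  have hcl : IsAlgClosed (baseW W (AlgebraicClosure W.K)).K :=
    inferInstanceAs (IsAlgClosed (AlgebraicClosure W.K))
  obtain ⟨R, h0, h1, h2⟩ := main_closed (W := baseW W (AlgebraicClosure W.K)) (X := X)
    (Pool.Agent.R940.par_mem_base _ hpar) ⟨j, fun h => hj (proj_mem_of_base _ h)⟩ ht ht1
  refine ⟨R, h0, lt_of_lt_of_eq h1 (poincare_base _ t), h2⟩

/-- Full growth at one `t ≠ 1` implies the Künneth conjecture. -/
theorem kunneth_of_growth (hS : SignStd W X) {t : ℝ} (ht : 0 < t) (ht1 : t ≠ 1)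
    (h : FullGrowth W X t) : KunnethSpan W X := by
  by_contra hC
  obtain ⟨R, h0, h1, h2⟩ := main_any hS hC ht ht1
  obtain ⟨n, hn⟩ := h R h0 h1
  exact absurd (h2 n) (not_le.2 hn)

end Pool.Agent.J4H47.GC
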