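import Pool.Agent.J4H47.GC.Geo
import Pool.Agent.H914R2.KDefs

/-!
# Lower bounds for the ranks: exact statements
-/

set_option autoImplicit false

open CategoryTheory AlgebraicGeometry Finset Module

universe u v

namespace Pool.Agent.J4H47.GC

open Pool.Agent.H914 VarClass Obj WeilCohomology Pool.Agent.H447 Pool.Agent.Y163
  Pool.Agent.W534

/-- The rank of the intersection form on a square, in any codimension. -/
def S_KP : Prop := ∀ {k : Type u} [Field k] {𝒱 : VarClass k} {ops : CycleOps 𝒱}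
    (W : WeilCohomology.{u, v} ops) (Y : 𝒱.Obj) (r : ℤ) (j l : ℕ), (j : ℤ) = Y.dim + r →
    (l : ℤ) = Y.dim - r → par (W.isInternal Y) ∈ KOp W Y Y 0 →
  mu (KOp W Y Y r) (KOp W Y Y (-r)) 1 1 ≤ kRank W (Y.prod Y) j l

/-- The part of one degree, and the permutations of the factors. -/
def S_CR : Prop := ∀ {k : Type u} [Field k] {𝒱 : VarClass k} {ops : CycleOps 𝒱}
    (W : WeilCohomology.{u, v} ops) [IsAlgClosed W.K] (X : 𝒱.Obj) (n e : ℕ) (r : ℤ)
    (θ θ' : Module.End W.K (W.H (pw X n))), θ ∈ KOp W (pw X n) (pw X n) r →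
    θ' ∈ KOp W (pw X n) (pw X n) (-r) →
    proj (W.isInternal (pw X n)) e ∈ KOp W (pw X n) (pw X n) 0 →
    (∀ a ∈ W.gr (pw X n) e, θ' (θ a) = a) →
  finrank W.K (W.gr (pw X n) e) ^ 2 ≤
    mu (KOp W (pw X n) (pw X n) r) (KOp W (pw X n) (pw X n) (-r)) 1 1 *
      (n + 2) ^ (finrank W.K (W.H X) ^ 2)

/-- The Lefschetz isomorphisms of the powers and their inverses are algebraic. -/
def S_TH : Prop := ∀ {k : Type u} [Field k] {𝒱 : VarClass k} {ops : CycleOps 𝒱}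
    (W : WeilCohomology.{u, v} ops) (X : 𝒱.Obj) (D : X.Cycles), X.IsCyc 1 D →
    HardLefschetz W X D → LefschetzB W X D → ∀ (n e : ℕ), e ≤ 2 * (pw X n).dim →
  proj (W.isInternal (pw X n)) e ∈ KOp W (pw X n) (pw X n) 0 ∧
  ∃ θ ∈ KOp W (pw X n) (pw X n) ((pw X n).dim - e),
    ∃ θ' ∈ KOp W (pw X n) (pw X n) (-((pw X n).dim - e)),
      ∀ a ∈ W.gr (pw X n) e, θ' (θ a) = a

end Pool.Agent.J4H47.GC
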