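import Pool.Agent.J4H47.GC.Defs
import Pool.Agent.J4H47.GC.Low

/-!
# Lower bounds for the ranks: exact statements, second part
-/

set_option autoImplicit false

open CategoryTheory AlgebraicGeometry Finset Module

universe u v

namespace Pool.Agent.J4H47.GC

open Pool.Agent.H914 VarClass Obj WeilCohomology Pool.Agent.H447 Pool.Agent.Y163
  Pool.Agent.W534

/-- The Poincaré polynomial of a product. -/
def S_PP : Prop := ∀ {k : Type u} [Field k] {𝒱 : VarClass k} {ops : CycleOps 𝒱}
    (W : WeilCohomology.{u, v} ops) (X Y : 𝒱.Obj) (t : ℝ),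
  poincare W (X.prod Y) t = poincare W X t * poincare W Y t

/-- Poincaré duality for the Betti numbers. -/
def S_PD : Prop := ∀ {k : Type u} [Field k] {𝒱 : VarClass k} {ops : CycleOps 𝒱}
    (W : WeilCohomology.{u, v} ops) (X : 𝒱.Obj) (c e : ℕ), c + e = 2 * X.dim →
  finrank W.K (W.gr X c) = finrank W.K (W.gr X e)

/-- From the squares of Betti numbers to full growth. -/
def S_FG : Prop := ∀ {k : Type u} [Field k] {𝒱 : VarClass k} {ops : CycleOps 𝒱}
    (W : WeilCohomology.{u, v} ops) (X : 𝒱.Obj) (B : ℕ),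
  (∀ n c : ℕ, c ≤ 2 * (pw X n).dim →
    finrank W.K (W.gr (pw X n) c) ^ 2 ≤ numRank ops (sq X n) c * (n + 2) ^ B) →
  ∀ t : ℝ, 0 < t → FullGrowth W X t

end Pool.Agent.J4H47.GC
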