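import Pool.Agent.J4H47.GC.Th
import Pool.Agent.J4H47.GC.Low2
import Pool.Agent.J4H47.GC.Base

/-!
# The conjecture B implies full growth
-/

set_option autoImplicit false

open CategoryTheory AlgebraicGeometry Finset Module TensorProduct

universe u v

namespace Pool.Agent.J4H47.GC

open Pool.Agent.H914 VarClass Obj WeilCohomology Pool.Agent.H447 Pool.Agent.Y163
  Pool.Agent.W534

variable {k : Type u} [Field k] {𝒱 : VarClass k} {ops : CycleOps 𝒱}
  {W : WeilCohomology.{u, v} ops} {X Y Z : 𝒱.Obj}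

/-- The ranks on the squares of the powers. -/
theorem sq_le_numRank (hKP : S_KP.{u, v}) (hCR : S_CR.{u, v}) (hPD : S_PD.{u, v})
    {D : X.Cycles} (hD : X.IsCyc 1 D) (hHL : HardLefschetz W X D) (hB : LefschetzB W X D)
    (n c : ℕ) (hc : c ≤ 2 * (pw X n).dim) :
    finrank W.K (W.gr (pw X n) c) ^ 2 ≤
      numRank ops (sq X n) c * (n + 2) ^ (finrank W.K (W.H X) ^ 2) := by
  set L := AlgebraicClosure W.K with hLdef
  have hcl : IsAlgClosed (baseW W L).K := inferInstanceAs (IsAlgClosed (AlgebraicClosure W.K))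
  obtain ⟨e, he⟩ := Nat.exists_eq_add_of_le hc
  obtain ⟨hpr, θ, hθ, θ', hθ', h1⟩ := t_TH W X D hD hHL hB n e (by omega)
  have hθL : (θ.baseChange L : L ⊗[W.K] W.H (pw X n) →ₗ[L] L ⊗[W.K] W.H (pw X n)) ∈
      KOp (baseW W L) (pw X n) (pw X n) ((pw X n).dim - e) := KOp.base hθ
  have hθL' : (θ'.baseChange L : L ⊗[W.K] W.H (pw X n) →ₗ[L] L ⊗[W.K] W.H (pw X n)) ∈
      KOp (baseW W L) (pw X n) (pw X n) (-((pw X n).dim - e)) := KOp.base hθ'
  have hprL : proj ((baseW W L).isInternal (pw X n)) e ∈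
      KOp (baseW W L) (pw X n) (pw X n) 0 := by
    rw [proj_base]
    exact KOp.base hpr
  have h1L : ∀ a ∈ (W.gr (pw X n) e).baseChange L,
      (θ'.baseChange L) ((θ.baseChange L) a) = a := by
    intro a ha
    rw [Submodule.baseChange_eq_span] at ha
    induction ha using Submodule.span_induction with
    | mem x hx =>
      obtain ⟨b, hb, rfl⟩ := hx
      rw [TensorProduct.mk_apply, LinearMap.baseChange_tmul, LinearMap.baseChange_tmul, h1 b hb]
    | zero => rw [map_zero, map_zero]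
    | add x y _ _ hx hy => rw [map_add, map_add, hx, hy]
    | smul r x _ hx => rw [map_smul, map_smul, hx]
  have h2 := hCR (baseW W L) X n e _ _ _ hθL hθL' hprL h1L
  have hS : SignStd W (pw X n) := by
    obtain ⟨h3, h4⟩ := pD_lef hD hHL hB n
    exact Pool.Agent.J4H44.BM.sign_of_lefschetzB (pD_cyc hD n) h3 h4
  have hpar : par ((baseW W L).isInternal (pw X n)) ∈
      KOp (baseW W L) (pw X n) (pw X n) 0 :=
    Pool.Agent.R940.par_mem_base L (Pool.Agent.J4H44.BM.ROp.kr (par_rop_of_sign hS))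
  have h3 := hKP (baseW W L) (pw X n) ((pw X n).dim - e) c e (by omega) (by omega) hpar
  have h4 : numRank ops (sq X n) c = kRank (baseW W L) ((pw X n).prod (pw X n)) c e := by
    have h5 : c ≤ (sq X n).dim := by
      rw [Pool.Agent.Y163.sq, dim_prod]
      omega
    rw [numRank_eq (W := baseW W L) h5]
    have h6 : (sq X n).dim - c = e := by
      rw [Pool.Agent.Y163.sq, dim_prod]
      omega
    rw [h6]
    rfl
  have h7 : finrank (baseW W L).K ((baseW W L).gr (pw X n) e) = finrank W.K (W.gr (pw X n) e) :=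
    Pool.Agent.R940.finrank_base L (W.gr (pw X n) e)
  rw [h7, ← hPD W (pw X n) c e (by omega), Pool.Agent.R940.finrank_baseW] at h2
  refine h2.trans (Nat.mul_le_mul_right _ ?_)
  rw [h4]
  exact h3

/-- **The conjecture B implies full growth.** -/
theorem fullGrowth_of_lefschetzB (hKP : S_KP.{u, v}) (hCR : S_CR.{u, v}) (hPD : S_PD.{u, v})
    (hFG : S_FG.{u, v}) {D : X.Cycles} (hD : X.IsCyc 1 D) (hHL : HardLefschetz W X D)
    (hB : LefschetzB W X D) {t : ℝ} (ht : 0 < t) : FullGrowth W X t :=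
  hFG W X _ (fun n c hc => sq_le_numRank hKP hCR hPD hD hHL hB n c hc) t ht

end Pool.Agent.J4H47.GC
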