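import Pool.Agent.J4H47.GC.Asm
import Pool.Agent.J4H60.GC.Kp
import Pool.Agent.J4H46.GC.Pd
import Pool.Agent.J4H46.GC.Fg
import Pool.Agent.J4H62.GC.Cr
import Pool.Agent.J4H62.GC.Pp

/-!
# The conjecture B implies full growth of the ranks
-/

set_option autoImplicit false

open CategoryTheory AlgebraicGeometry

universe u v

namespace Pool.Agent.J4H47.GC

open Pool.Agent.H914 VarClass Obj WeilCohomology Pool.Agent.H447 Pool.Agent.Y163

variable {k : Type u} [Field k] {𝒱 : VarClass k} {ops : CycleOps 𝒱}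
  {W : WeilCohomology.{u, v} ops} {X : 𝒱.Obj}

/-- **The conjecture B implies full growth of the ranks at every `t`.** -/
theorem fullGrowth_of_B {D : X.Cycles} (hD : X.IsCyc 1 D) (hHL : HardLefschetz W X D)
    (hB : LefschetzB W X D) {t : ℝ} (ht : 0 < t) : FullGrowth W X t :=
  fullGrowth_of_lefschetzB Pool.Agent.J4H60.GC.t_KP Pool.Agent.J4H62.GC.t_CR
    Pool.Agent.J4H46.GC.t_PD (Pool.Agent.J4H46.GC.t_FG Pool.Agent.J4H62.GC.t_PP) hD hHL hB ht

end Pool.Agent.J4H47.GC
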