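import Mathlib

/-!
# Growth of ranks and the Kunneth conjecture: exact statements of the algebraic pieces
-/

set_option autoImplicit false

open Finset

universe v

namespace Pool.Agent.J4H47.GC

/-- Complete decompositions into primitive idempotents. -/
def S_ALG : Prop := ∀ (K : Type v) [Field K] [IsAlgClosed K] (V : Type v) [AddCommGroup V]
    [Module K V] [Module.Finite K V] (A : Subalgebra K (Module.End K V)),
  ∃ (N : ℕ) (f : Fin N → Module.End K V), (∀ i, f i ∈ A) ∧ (∀ i, f i ≠ 0) ∧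
    (∀ i, f i * f i = f i) ∧ (∀ i j, i ≠ j → f i * f j = 0) ∧ ∑ i, f i = 1 ∧
    ∀ i, ∀ x ∈ A, ∃ c : K, IsNilpotent (f i * x * f i - c • f i)

/-- An involution is a sign on a primitive idempotent. -/
def S_PAR : Prop := ∀ (K : Type v) [Field K] [CharZero K] (V : Type v) [AddCommGroup V]
    [Module K V] [Module.Finite K V] (f p : Module.End K V), f * f = f → f ≠ 0 → p * p = 1 →
  p * f = f * p → (∃ c : K, IsNilpotent (f * p * f - c • f)) → p * f = f ∨ p * f = -f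

/-- Traces on the corner of a primitive idempotent. -/
def S_LOC : Prop := ∀ (K : Type v) [Field K] [CharZero K] (V : Type v) [AddCommGroup V]
    [Module K V] [Module.Finite K V] (f z : Module.End K V) (c : K), f * f = f →
  IsNilpotent (f * z * f - c • f) → ∀ D : Module.End K V, D * f = f * D → D * z = z * D →
    LinearMap.trace K V (D * f * z) = c * LinearMap.trace K V (D * f)

/-- The weighted inequality of the means, for a function on the degrees. -/
def S_AM : Prop := ∀ (d : ℕ) (m : ℕ → ℕ) (u : ℝ), 0 < u → 0 < ∑ j ∈ range d, m j →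
  ((∑ j ∈ range d, (m j : ℝ)) *
      u ^ ((∑ j ∈ range d, ((j : ℝ) * (m j : ℝ))) / ∑ j ∈ range d, (m j : ℝ)) ≤
    ∑ j ∈ range d, (m j : ℝ) * u ^ j) ∧
  (u ≠ 1 → (∃ i < d, ∃ j < d, i ≠ j ∧ m i ≠ 0 ∧ m j ≠ 0) →
    (∑ j ∈ range d, (m j : ℝ)) *
      u ^ ((∑ j ∈ range d, ((j : ℝ) * (m j : ℝ))) / ∑ j ∈ range d, (m j : ℝ)) <
    ∑ j ∈ range d, (m j : ℝ) * u ^ j)

/-- Summation over the words. -/
def S_SUM : Prop := ∀ (N n d : ℕ) (m : Fin N → ℕ) (q : Fin N → ℝ) (u : ℝ) (r : ℕ → ℕ), 0 < u →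
  (∀ c < d, (r c : ℝ) ≤ ∑ w : Fin (n + 1) → Fin N,
    if ∑ j, q (w j) = 2 * (c : ℝ) then ∏ j, (m (w j) : ℝ) else 0) →
  ∑ c ∈ range d, (r c : ℝ) * u ^ (2 * c) ≤ (∑ i, (m i : ℝ) * u ^ q i) ^ (n + 1)

end Pool.Agent.J4H47.GC
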