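import Mathlib

/-!
# The inequality of the means with a defect: exact statement
-/

set_option autoImplicit false

open Finset

namespace Pool.Agent.J4H47.GC

/-- The inequality of the means with a defect: two degrees `a`, `a + 2 ≤ b` occur. -/
def S_AM2 : Prop := ∀ (d : ℕ) (m : ℕ → ℕ) (u : ℝ), 0 < u → (∃ a b : ℕ, a + 2 ≤ b ∧ b ≤ 2 * d ∧
    m a ≠ 0 ∧ m b ≠ 0) →
  (∑ j ∈ range (2 * d + 1), (m j : ℝ)) *
      u ^ ((∑ j ∈ range (2 * d + 1), ((j : ℝ) * (m j : ℝ))) /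
        ∑ j ∈ range (2 * d + 1), (m j : ℝ)) ≤
    (∑ j ∈ range (2 * d + 1), (m j : ℝ) * u ^ j) - min 1 (u ^ (2 * d - 2)) * (u - 1) ^ 2

end Pool.Agent.J4H47.GC
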