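import Pool.Agent.J4H47.GC.Defs

/-!
# The defect
-/

set_option autoImplicit false

open CategoryTheory AlgebraicGeometry

universe u

namespace Pool.Agent.J4H47.GC

open Pool.Agent.H914 VarClass

/-- The number `δ = min (1, t ^ (2 d - 2)) (t - 1) ^ 2`, where `d = dim X` (for `d = 0` the exponent
is `0`). It is positive for all `t > 0` except `t = 1`. -/
noncomputable def defect {k : Type u} [Field k] {𝒱 : VarClass k} (X : 𝒱.Obj) (t : ℝ) : ℝ :=
  min 1 (t ^ (2 * X.dim - 2)) * (t - 1) ^ 2

end Pool.Agent.J4H47.GC
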