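import Pool.Agent.J4H47.GC.Base

/-!
# Rational coefficients
-/

set_option autoImplicit false

open CategoryTheory AlgebraicGeometry Finset Module

universe u v

namespace Pool.Agent.J4H47.GC

open Pool.Agent.H914 VarClass Obj WeilCohomology Pool.Agent.H447

variable {k : Type u} [Field k] {𝒱 : VarClass k} {ops : CycleOps 𝒱}
  {W : WeilCohomology.{u, v} ops} {X Y Z : 𝒱.Obj}

/-- If the coefficient field of `W` is the field of the rational numbers, then the classes in the
span are the classes of cycles. -/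
lemma exists_cyc_of_span (hQ : ∀ c : W.K, ∃ r : ℚ, (r : W.K) = c) {p : ℕ} {γ : W.H X}
    (h : γ ∈ spanCycles W X p) : ∃ z, X.IsCyc p z ∧ W.cl X z = γ := by
  induction h using Submodule.span_induction with
  | mem x hx =>
    obtain ⟨r, hr, z, hz, rfl⟩ := hx
    obtain rfl : r = p := by exact_mod_cast hr
    exact ⟨z, hz, rfl⟩
  | zero => exact ⟨0, SmVar.IsCyc.zero _ _, map_zero _⟩
  | add x y _ _ hx hy =>
    obtain ⟨z, hz, rfl⟩ := hx
    obtain ⟨w, hw, rfl⟩ := hy
    exact ⟨z + w, hz.add hw, map_add _ _ _⟩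
  | smul c x _ hx =>
    obtain ⟨z, hz, rfl⟩ := hx
    obtain ⟨r, rfl⟩ := hQ c
    exact ⟨r • z, hz.smul r, W.cl_smul r z⟩

lemma kunnethStd_of_span (hQ : ∀ c : W.K, ∃ r : ℚ, (r : W.K) = c) (h : KunnethSpan W X) :
    KunnethStd W X := by
  intro i
  obtain ⟨γ, hγ, h1⟩ := h i
  obtain ⟨z, hz, rfl⟩ := exists_cyc_of_span hQ hγ
  exact ⟨z, hz, h1⟩

end Pool.Agent.J4H47.GC
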