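import Pool.Agent.N190.CB.Tr
import Pool.Agent.H447R3.KuB
import Pool.Agent.R940.KBase

/-!
# Weights of algebraic correspondences
-/

set_option autoImplicit false

open CategoryTheory AlgebraicGeometry Finset Module

universe u v

namespace Pool.Agent.J4H47.GC

open Pool.Agent.H914 VarClass Obj WeilCohomology Pool.Agent.H447 Pool.Agent.N190.CB

variable {k : Type u} [Field k] {𝒱 : VarClass k} {ops : CycleOps 𝒱}
  {W : WeilCohomology.{u, v} ops} {X Y Z : 𝒱.Obj}

/-- The operator which multiplies the classes of degree `i` by `i`. -/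
noncomputable def dop (W : WeilCohomology.{u, v} ops) (X : 𝒱.Obj) : Module.End W.K (W.H X) :=
  scal (W.isInternal X) (fun i => (i : W.K))

/-- The algebraic operator `F` has weight `q`. -/
def HasWt (W : WeilCohomology.{u, v} ops) (Y : 𝒱.Obj) (F : Module.End W.K (W.H Y)) (q : W.K) :
    Prop :=
  F ∈ KOp W Y Y 0 ∧ ∀ z ∈ KOp W Y Y 0, str W Y (z * (dop W Y * F)) = q * str W Y (z * F)

/-- The degree operator of a product. -/
lemma dop_prod : dop W (X.prod Y) = extOp W (dop W X) 1 + extOp W 1 (dop W Y) := by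
  apply LinearMap.ext
  intro x
  rw [LinearMap.add_apply]
  refine W.kunneth_induction (p := fun x => dop W (X.prod Y) x =
    extOp W (dop W X) 1 x + extOp W 1 (dop W Y) x) ?_ ?_ x
  · intro a b ha hb
    rw [map_add, map_add, map_add, ha, hb]
    abel
  · intro i j a ha b hb
    rw [dop, scal_apply _ _ (W.mul_mem (W.map_mem (fst X Y) ha) (W.map_mem (snd X Y) hb)),
      extOp_tmul, extOp_tmul, dop, dop, scal_apply _ _ ha, scal_apply _ _ hb,
      Module.End.one_apply, Module.End.one_apply, map_smul, map_smul,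
      smul_mul_assoc, mul_smul_comm, ← add_smul]
    push_cast
    rfl

lemma kop_isHom {y : Module.End W.K (W.H X)} (hy : y ∈ KOp W X X 0) :
    IsHom (W.gr X) 0 y := by
  have := KOp.isHom hy
  rwa [mul_zero] at this

lemma dop_isHom : IsHom (W.gr X) 0 (dop W X) := isHom_scal _ _

/-- **Weights are additive.** -/
theorem HasWt.ext {F : Module.End W.K (W.H X)} {G : Module.End W.K (W.H Y)} {q r : W.K}
    (hF : HasWt W X F q) (hG : HasWt W Y G r) : HasWt W (X.prod Y) (extOp W F G) (q + r) := by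
  refine ⟨KOp.cast (KOp.ext hF.1 hG.1) (by ring), fun z hz => ?_⟩
  rw [dop_prod, add_mul, extOp_mul, extOp_mul, one_mul, one_mul, mul_add, map_add]
  obtain ⟨T, hT, h1⟩ := exists_ptrace hz hG.1
  obtain ⟨T', hT', h2⟩ := exists_ptrace' hz hF.1
  obtain ⟨f1, hf1⟩ := exists_corr (W := W) (dop W X * F)
  obtain ⟨f2, hf2⟩ := exists_corr (W := W) F
  obtain ⟨g1, hg1, hg1'⟩ := exists_class_zero (W := W) (p := dop W Y * G)
    (by simpa using (dop_isHom (W := W) (X := Y)).mul (kop_isHom hG.1))
  obtain ⟨g2, hg2, hg2'⟩ := exists_class_zero (W := W) (p := G) (kop_isHom hG.1)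
  have e1 := h1 f1
  have e2 := h1 f2
  have e3 := h2 hg1
  have e4 := h2 hg2
  rw [hf1] at e1
  rw [hf2] at e2
  rw [hg1'] at e3
  rw [hg2'] at e4
  rw [e1, e3, hF.2 T (KOp.cast hT (by ring)), hG.2 T' (KOp.cast hT' (by ring)), ← e2, ← e4]
  ring

lemma mul_span {p q : ℤ} {a b : W.H X} (ha : a ∈ spanCycles W X p) (hb : b ∈ spanCycles W X q) :
    a * b ∈ spanCycles W X (p + q) := by
  induction ha using Submodule.span_induction with
  | mem x hx =>
    obtain ⟨r, hr, z, hz, rfl⟩ := hx
    induction hb using Submodule.span_induction with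
    | mem y hy =>
      obtain ⟨s, hs, w, hw, rfl⟩ := hy
      exact Submodule.subset_span ⟨r + s, by push_cast; rw [hr, hs], ops.mul z w,
        ops.mul_mem hz hw, (W.cl_mul _ _)⟩
    | zero => rw [mul_zero]; exact Submodule.zero_mem _
    | add x y _ _ hx hy => rw [mul_add]; exact Submodule.add_mem _ hx hy
    | smul c x _ hx => rw [mul_smul_comm]; exact Submodule.smul_mem _ _ hx
  | zero => rw [zero_mul]; exact Submodule.zero_mem _
  | add x y _ _ hx hy => rw [add_mul]; exact Submodule.add_mem _ hx hy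
  | smul c x _ hx => rw [smul_mul_assoc]; exact Submodule.smul_mem _ _ hx

/-- The operator `y ↦ tr (b y) a` is algebraic. -/
lemma rankOne_mem {c l : ℕ} {a b : W.H X} (ha : a ∈ spanCycles W X c)
    (hb : b ∈ spanCycles W X l) (h : c + l = X.dim) :
    (W.tr X ∘ₗ LinearMap.mulLeft W.K b).smulRight a ∈ KOp W X X 0 := by
  rw [← corr_swap_tmul (span_gr ha) (span_gr hb), mem_KOp_iff]
  refine ⟨_, ?_, rfl⟩
  have h1 := mul_span (Pool.Agent.Y163.map_span (fst X X) ha)
    (Pool.Agent.Y163.map_span (snd X X) hb)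
  have h2 := Pool.Agent.Y163.map_span (swap X X) h1
  rw [add_zero, ← h]
  push_cast
  exact h2

/-- **The weight of a class.** -/
theorem HasWt.tr_eq_zero {F : Module.End W.K (W.H X)} {q : W.K} (hF : HasWt W X F q) {c l : ℕ}
    {a b : W.H X} (ha : a ∈ spanCycles W X c) (hb : b ∈ spanCycles W X l) (h : c + l = X.dim)
    (hq : q ≠ 2 * c) : W.tr X (F a * b) = 0 := by
  have h1 := hF.2 _ (rankOne_mem ha hb h)
  have ha' : a ∈ W.gr X (2 * c) := span_gr ha
  have hb' : b ∈ W.gr X (2 * l) := span_gr hb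
  have hFa : F a ∈ W.gr X (2 * c) := by
    have := kop_isHom hF.1 (2 * c : ℕ) a (by rw [grZ_natCast]; exact ha')
    rwa [add_zero, grZ_natCast] at this
  have key : ∀ G : Module.End W.K (W.H X),
      str W X ((W.tr X ∘ₗ LinearMap.mulLeft W.K b).smulRight a * G) =
        W.tr X (b * G a) := by
    intro G
    have h2 : par (W.isInternal X) * ((W.tr X ∘ₗ LinearMap.mulLeft W.K b).smulRight a * G) =
        (W.tr X ∘ₗ LinearMap.mulLeft W.K b ∘ₗ G).smulRight a := by
      apply LinearMap.ext
      intro y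
      rw [Module.End.mul_apply, Module.End.mul_apply, LinearMap.smulRight_apply, map_smul, par,
        scal_apply _ _ ha', LinearMap.smulRight_apply, Even.neg_one_pow (even_two_mul c),
        one_smul]
      rfl
    rw [str_apply, h2, LinearMap.trace_smulRight]
    rfl
  rw [key, key, Module.End.mul_apply, dop, scal_apply _ _ hFa, mul_smul_comm, map_smul,
    smul_eq_mul] at h1
  have h3 : ((2 * c : ℕ) : W.K) * W.tr X (b * F a) = q * W.tr X (b * F a) := h1
  have h4 : (q - 2 * c) * W.tr X (b * F a) = 0 := by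
    rw [sub_mul, ← h3]
    push_cast
    ring
  rcases mul_eq_zero.1 h4 with h5 | h5
  · exact absurd (sub_eq_zero.1 h5) hq
  · rw [W.even_comm hFa]
    exact h5

end Pool.Agent.J4H47.GC
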