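import Pool.Agent.J4H47.GC.Wrd
import Pool.Agent.J4H79.GC.Alg
import Pool.Agent.J4H79.GC.Par
import Pool.Agent.J4H17.GC.Am
import Pool.Agent.J4H17.GC.Sum

/-!
# The growth bound over algebraically closed coefficient fields
-/

set_option autoImplicit false

open CategoryTheory AlgebraicGeometry Finset Module

universe u v

namespace Pool.Agent.J4H47.GC

open Pool.Agent.H914 VarClass Obj WeilCohomology Pool.Agent.H447 Pool.Agent.N190.CB
  Pool.Agent.Y163 Pool.Agent.W534

section Lin

variable {K : Type*} [Field K] {V : Type*} [AddCommGroup V] [Module K V]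
  {gr : ℕ → Submodule K V}

lemma scal_commute (h : DirectSum.IsInternal gr) {f : Module.End K V} (hf : IsHom gr 0 f)
    (c : ℕ → K) : scal h c * f = f * scal h c := by
  have := hf.scal_comm h (fun i => if 0 ≤ i then c i.toNat else 0)
    (fun i => if 0 ≤ i then c i.toNat else 0) (fun i => by rw [add_zero])
  simp only [Int.natCast_nonneg, if_true, Int.toNat_natCast] at this
  exact this

/-- The dimension of the part of degree `j` of the image of `f`. -/
noncomputable def grk (h : DirectSum.IsInternal gr) (f : Module.End K V) (j : ℕ) : ℕ :=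
  finrank K (LinearMap.range (proj h j * f))

lemma proj_idem (h : DirectSum.IsInternal gr) {f : Module.End K V} (hf : IsHom gr 0 f)
    (hff : f * f = f) (j : ℕ) : (proj h j * f) * (proj h j * f) = proj h j * f := by
  have h1 : proj h j * f = f * proj h j := scal_commute h hf _
  calc (proj h j * f) * (proj h j * f) = proj h j * (f * proj h j) * f := by
        simp only [mul_assoc]
    _ = proj h j * (proj h j * f) * f := by rw [h1]
    _ = (proj h j * proj h j) * (f * f) := by simp only [mul_assoc]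
    _ = proj h j * f := by rw [proj_mul_proj, hff]

variable [CharZero K] [Module.Finite K V]

omit [CharZero K] in
lemma trace_scal (h : DirectSum.IsInternal gr) {N : ℕ} (hN : ∀ i, N ≤ i → gr i = ⊥)
    {f : Module.End K V} (hf : IsHom gr 0 f) (hff : f * f = f) (c : ℕ → K) :
    LinearMap.trace K V (scal h c * f) = ∑ j ∈ range N, c j * (grk h f j : K) := by
  rw [scal_eq_sum h hN, sum_mul, map_sum]
  refine Finset.sum_congr rfl fun j _ => ?_
  rw [smul_mul_assoc, map_smul, Pool.Agent.H914.trace_idem (proj_idem h hf hff j), smul_eq_mul]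
  rfl

lemma finrank_range_eq (h : DirectSum.IsInternal gr) {N : ℕ} (hN : ∀ i, N ≤ i → gr i = ⊥)
    {f : Module.End K V} (hf : IsHom gr 0 f) (hff : f * f = f) :
    finrank K (LinearMap.range f) = ∑ j ∈ range N, grk h f j := by
  have h1 := trace_scal h hN hf hff (fun _ => 1)
  rw [scal_one, one_mul, Pool.Agent.H914.trace_idem hff] at h1
  simp only [one_mul] at h1
  exact_mod_cast h1

lemma finrank_gr_eq (h : DirectSum.IsInternal gr) {N : ℕ} {f : Fin N → Module.End K V}
    (hf : ∀ i, IsHom gr 0 (f i)) (hff : ∀ i, f i * f i = f i) (hs : ∑ i, f i = 1) (j : ℕ) :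
    finrank K (gr j) = ∑ i, grk h (f i) j := by
  have h1 : LinearMap.trace K V (proj h j) = ∑ i, (grk h (f i) j : K) := by
    conv_lhs => rw [← mul_one (proj h j), ← hs, mul_sum, map_sum]
    refine Finset.sum_congr rfl fun i _ => ?_
    rw [Pool.Agent.H914.trace_idem (proj_idem h (hf i) (hff i) j)]
    rfl
  rw [trace_proj] at h1
  exact_mod_cast h1

end Lin

variable {k : Type u} [Field k] {𝒱 : VarClass k} {ops : CycleOps 𝒱}
  {W : WeilCohomology.{u, v} ops} {X Y Z : 𝒱.Obj}

lemma gr_top (i : ℕ) (hi : 2 * X.dim + 1 ≤ i) : W.gr X i = ⊥ := W.gr_eq_bot X i (by omega)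

/-- The average degree. -/
noncomputable def avg (W : WeilCohomology.{u, v} ops) (X : 𝒱.Obj)
    (f : Module.End W.K (W.H X)) : ℚ :=
  (∑ j ∈ range (2 * X.dim + 1), (j : ℚ) * (grk (W.isInternal X) f j : ℚ)) /
    ∑ j ∈ range (2 * X.dim + 1), (grk (W.isInternal X) f j : ℚ)

/-- **A primitive idempotent has a weight.** -/
theorem hasWt_of_local (hpar : par (W.isInternal X) ∈ KOp W X X 0) {f : Module.End W.K (W.H X)}
    (hf : f ∈ KOp W X X 0) (hff : f * f = f) (hf0 : f ≠ 0)
    (hloc : ∀ x ∈ KOp W X X 0, ∃ c : W.K, IsNilpotent (f * x * f - c • f)) :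
    HasWt W X f ((avg W X f : ℚ) : W.K) := by
  have hfh := kop_isHom hf
  have hpf : par (W.isInternal X) * f = f * par (W.isInternal X) := scal_commute _ hfh _
  have hpp : par (W.isInternal X) * par (W.isInternal X) = 1 := par_mul_self
  have hsgn := Pool.Agent.J4H79.GC.t_PAR W.K (W.H X) f (par (W.isInternal X)) hff hf0 hpp hpf
    (hloc _ hpar)
  obtain ⟨s, hs⟩ : ∃ s : W.K, par (W.isInternal X) * f = s • f := by
    rcases hsgn with h | h
    · exact ⟨1, by rw [h, one_smul]⟩
    · exact ⟨-1, by rw [h]; module⟩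
  refine ⟨hf, fun z hz => ?_⟩
  obtain ⟨c, hc⟩ := hloc z hz
  have hzh := kop_isHom hz
  have hdf : dop W X * f = f * dop W X := scal_commute _ hfh _
  have hdz : dop W X * z = z * dop W X := scal_commute _ hzh _
  have hpz : par (W.isInternal X) * z = z * par (W.isInternal X) := scal_commute _ hzh _
  have hpd : par (W.isInternal X) * dop W X = dop W X * par (W.isInternal X) :=
    scal_commute _ dop_isHom _
  have key := Pool.Agent.J4H79.GC.t_LOC W.K (W.H X) f z c hff hc
  have e1 := key (par (W.isInternal X) * dop W X)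
    (by rw [mul_assoc, hdf, ← mul_assoc, hpf, mul_assoc])
    (by rw [mul_assoc, hdz, ← mul_assoc, hpz, mul_assoc])
  have e2 := key (par (W.isInternal X)) hpf hpz
  have e3 : str W X (z * (dop W X * f)) =
      LinearMap.trace W.K (W.H X) (par (W.isInternal X) * dop W X * f * z) := by
    rw [str_apply, ← mul_assoc, hpz, mul_assoc, LinearMap.trace_mul_comm]
    simp only [mul_assoc]
  have e4 : str W X (z * f) =
      LinearMap.trace W.K (W.H X) (par (W.isInternal X) * f * z) := by
    rw [str_apply, ← mul_assoc, hpz, mul_assoc, LinearMap.trace_mul_comm]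
  have e5 : LinearMap.trace W.K (W.H X) (par (W.isInternal X) * dop W X * f) =
      s * LinearMap.trace W.K (W.H X) (dop W X * f) := by
    rw [hpd, mul_assoc, hs, mul_smul_comm, map_smul, smul_eq_mul]
  have e6 : LinearMap.trace W.K (W.H X) (par (W.isInternal X) * f) =
      s * LinearMap.trace W.K (W.H X) f := by
    rw [hs, map_smul, smul_eq_mul]
  have e7 : LinearMap.trace W.K (W.H X) (dop W X * f) =
      ((∑ j ∈ range (2 * X.dim + 1), (j : ℚ) * (grk (W.isInternal X) f j : ℚ) : ℚ) : W.K) := by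
    rw [dop, trace_scal _ gr_top hfh hff]
    push_cast
    rfl
  have e8 : LinearMap.trace W.K (W.H X) f =
      ((∑ j ∈ range (2 * X.dim + 1), (grk (W.isInternal X) f j : ℚ) : ℚ) : W.K) := by
    rw [Pool.Agent.H914.trace_idem hff, finrank_range_eq _ gr_top hfh hff]
    push_cast
    rfl
  have e9 : (∑ j ∈ range (2 * X.dim + 1), (grk (W.isInternal X) f j : ℚ) : ℚ) ≠ 0 := by
    have h1 := finrank_range_eq (W.isInternal X) (gr_top (W := W) (X := X)) hfh hff
    intro h0
    have h2 : ((∑ j ∈ range (2 * X.dim + 1), grk (W.isInternal X) f j : ℕ) : ℚ) = 0 := by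
      push_cast
      exact h0
    rw [← h1] at h2
    have h3 : finrank W.K (LinearMap.range f) = 0 := by exact_mod_cast h2
    apply hf0
    rw [Submodule.finrank_eq_zero] at h3
    exact LinearMap.range_eq_bot.1 h3
  rw [e3, e4, e1, e2, e5, e6, e7, e8, avg]
  have e10 : ((∑ j ∈ range (2 * X.dim + 1), (grk (W.isInternal X) f j : ℚ) : ℚ) : W.K) ≠ 0 := by
    exact_mod_cast e9
  rw [Rat.cast_div]
  field_simp

/-- **The growth bound**, for an algebraically closed coefficient field. -/
theorem main_closed [IsAlgClosed W.K] (hpar : par (W.isInternal X) ∈ KOp W X X 0)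
    (hC : ∃ j, proj (W.isInternal X) j ∉ KOp W X X 0) {t : ℝ} (ht : 0 < t) (ht1 : t ≠ 1) :
    ∃ R : ℝ, 0 ≤ R ∧ R < ∑ j ∈ range (2 * X.dim + 1), (finrank W.K (W.gr X j) : ℝ) * t ^ j ∧
      ∀ n, ∑ c ∈ range ((pw X n).dim + 1), (numRank ops (pw X n) c : ℝ) * t ^ (2 * c) ≤
        R ^ (n + 1) := by
  classical
  obtain ⟨N, f, hfA, hf0, hff, horth, hsum, hloc⟩ :=
    Pool.Agent.J4H79.GC.t_ALG W.K (W.H X) (KAlg W X)
  have hfA' : ∀ i, f i ∈ KOp W X X 0 := hfA
  have hfh : ∀ i, IsHom (W.gr X) 0 (f i) := fun i => kop_isHom (hfA' i)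
  have hwt : ∀ i, HasWt W X (f i) ((avg W X (f i) : ℚ) : W.K) := fun i =>
    hasWt_of_local hpar (hfA' i) (hff i) (hf0 i) (fun x hx => hloc i x hx)
  set m : Fin N → ℕ → ℕ := fun i j => grk (W.isInternal X) (f i) j with hm
  have hM : ∀ i, finrank W.K (LinearMap.range (f i)) = ∑ j ∈ range (2 * X.dim + 1), m i j :=
    fun i => finrank_range_eq _ gr_top (hfh i) (hff i)
  have hMpos : ∀ i, 0 < ∑ j ∈ range (2 * X.dim + 1), m i j := by
    intro i
    rw [← hM i, Nat.pos_iff_ne_zero]
    intro h0
    rw [Submodule.finrank_eq_zero] at h0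
    exact hf0 i (LinearMap.range_eq_bot.1 h0)
  have havg : ∀ i, ((avg W X (f i) : ℚ) : ℝ) =
      (∑ j ∈ range (2 * X.dim + 1), (j : ℝ) * (m i j : ℝ)) /
        ∑ j ∈ range (2 * X.dim + 1), (m i j : ℝ) := by
    intro i
    rw [avg]
    push_cast
    rfl
  have ham := fun i => Pool.Agent.J4H17.GC.t_AM (2 * X.dim + 1) (m i) t ht (hMpos i)
  -- some idempotent has two degrees
  have htwo : ∃ i, ∃ j₁ < 2 * X.dim + 1, ∃ j₂ < 2 * X.dim + 1, j₁ ≠ j₂ ∧ m i j₁ ≠ 0 ∧
      m i j₂ ≠ 0 := by
    by_contra hcon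
    push Not at hcon
    obtain ⟨j, hj⟩ := hC
    apply hj
    have hz : ∀ i l, m i l = 0 → proj (W.isInternal X) l * f i = 0 := by
      intro i l h0
      have h1 : finrank W.K (LinearMap.range (proj (W.isInternal X) l * f i)) = 0 := h0
      rw [Submodule.finrank_eq_zero] at h1
      exact LinearMap.range_eq_bot.1 h1
    have hone : ∀ i, proj (W.isInternal X) j * f i ∈ KOp W X X 0 := by
      intro i
      by_cases h0 : m i j = 0
      · rw [hz i j h0]
        exact Submodule.zero_mem _
      · have hj' : j < 2 * X.dim + 1 := by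
          by_contra hlt
          apply h0
          have h1 : LinearMap.range (proj (W.isInternal X) j * f i) = ⊥ := by
            rw [eq_bot_iff]
            rintro _ ⟨x, rfl⟩
            have h2 : (proj (W.isInternal X) j * f i) x ∈ W.gr X j := proj_mem _ _ _
            rwa [gr_top j (by omega)] at h2
          change finrank W.K (LinearMap.range (proj (W.isInternal X) j * f i)) = 0
          rw [h1, finrank_bot]
        have h2 : f i = proj (W.isInternal X) j * f i := by
          conv_lhs => rw [← one_mul (f i), ← scal_one (W.isInternal X),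
            scal_eq_sum (W.isInternal X) gr_top, sum_mul]
          rw [Finset.sum_eq_single j]
          · rw [one_smul]
          · intro l hl hlj
            rw [one_smul]
            exact hz i l (hcon i j hj' l (mem_range.1 hl) (Ne.symm hlj) h0)
          · intro h3
            exact absurd (mem_range.2 hj') h3
        rw [← h2]
        exact hfA' i
    rw [← mul_one (proj (W.isInternal X) j), ← hsum, mul_sum]
    exact Submodule.sum_mem _ fun i _ => hone i
  obtain ⟨i₀, hi₀⟩ := htwo
  set R : ℝ := ∑ i, (finrank W.K (LinearMap.range (f i)) : ℝ) * t ^ ((avg W X (f i) : ℚ) : ℝ)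
    with hR
  have hle : ∀ i, (finrank W.K (LinearMap.range (f i)) : ℝ) * t ^ ((avg W X (f i) : ℚ) : ℝ) ≤
      ∑ j ∈ range (2 * X.dim + 1), (m i j : ℝ) * t ^ j := by
    intro i
    rw [hM i, havg i]
    push_cast
    exact (ham i).1
  have hlt : (finrank W.K (LinearMap.range (f i₀)) : ℝ) * t ^ ((avg W X (f i₀) : ℚ) : ℝ) <
      ∑ j ∈ range (2 * X.dim + 1), (m i₀ j : ℝ) * t ^ j := by
    rw [hM i₀, havg i₀]
    push_cast
    exact (ham i₀).2 ht1 hi₀
  refine ⟨R, Finset.sum_nonneg fun i _ => by positivity, ?_, fun n => ?_⟩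
  · have h1 : ∑ j ∈ range (2 * X.dim + 1), (finrank W.K (W.gr X j) : ℝ) * t ^ j =
        ∑ i, ∑ j ∈ range (2 * X.dim + 1), (m i j : ℝ) * t ^ j := by
      rw [Finset.sum_comm]
      refine Finset.sum_congr rfl fun j _ => ?_
      rw [finrank_gr_eq (W.isInternal X) hfh hff hsum j, ← sum_mul]
      push_cast
      rfl
    rw [h1]
    exact Finset.sum_lt_sum (fun i _ => hle i) ⟨i₀, mem_univ _, hlt⟩
  · apply Pool.Agent.J4H17.GC.t_SUM N n _ (fun i => finrank W.K (LinearMap.range (f i)))
      (fun i => ((avg W X (f i) : ℚ) : ℝ)) t (fun c => numRank ops (pw X n) c) ht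
    intro c hc
    rw [numRank_eq (W := W) (by omega)]
    have h1 := kRank_le_words hwt hsum n (c := c) (l := (pw X n).dim - c) (by omega)
    refine le_trans (Nat.cast_le.2 h1) (le_of_eq ?_)
    push_cast
    refine Finset.sum_congr rfl fun w _ => ?_
    have h2 : (∑ j, ((avg W X (f (w j)) : ℚ) : W.K) = 2 * (c : W.K)) ↔
        (∑ j, ((avg W X (f (w j)) : ℚ) : ℝ) = 2 * (c : ℝ)) := by
      constructor
      · intro h
        have h3 : ((∑ j, avg W X (f (w j)) : ℚ) : W.K) = ((2 * c : ℚ) : W.K) := by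
          push_cast
          exact h
        have h4 : (∑ j, avg W X (f (w j)) : ℚ) = 2 * c := by exact_mod_cast h3
        have h5 : ((∑ j, avg W X (f (w j)) : ℚ) : ℝ) = ((2 * c : ℚ) : ℝ) := by rw [h4]
        push_cast at h5
        exact h5
      · intro h
        have h3 : ((∑ j, avg W X (f (w j)) : ℚ) : ℝ) = ((2 * c : ℚ) : ℝ) := by
          push_cast
          exact h
        have h4 : (∑ j, avg W X (f (w j)) : ℚ) = 2 * c := by exact_mod_cast h3
        have h5 : ((∑ j, avg W X (f (w j)) : ℚ) : W.K) = ((2 * c : ℚ) : W.K) := by rw [h4]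
        push_cast at h5
        exact h5
    by_cases h6 : ∑ j, ((avg W X (f (w j)) : ℚ) : ℝ) = 2 * (c : ℝ)
    · rw [if_pos (h2.2 h6), if_pos h6]
    · rw [if_neg (fun h => h6 (h2.1 h)), if_neg h6]

end Pool.Agent.J4H47.GC
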