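import Pool.Agent.J4H47.GC.Base
import Pool.Agent.J4H47.GC.Def3

/-!
# The growth bound, effective version
-/

set_option autoImplicit false

open CategoryTheory AlgebraicGeometry Finset Module

universe u v

namespace Pool.Agent.J4H47.GC

open Pool.Agent.H914 VarClass Obj WeilCohomology Pool.Agent.H447 Pool.Agent.N190.CB
  Pool.Agent.Y163 Pool.Agent.W534

variable {k : Type u} [Field k] {𝒱 : VarClass k} {ops : CycleOps 𝒱}
  {W : WeilCohomology.{u, v} ops} {X Y Z : 𝒱.Obj}

/-- **The growth bound**, for an algebraically closed coefficient field. -/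
theorem main_closed2 (hAM : S_AM2) [IsAlgClosed W.K] (hpar : par (W.isInternal X) ∈ KOp W X X 0)
    (hC : ∃ j, proj (W.isInternal X) j ∉ KOp W X X 0) {t : ℝ} (ht : 0 < t) :
    ∃ R : ℝ, 0 ≤ R ∧ R ≤ (∑ j ∈ range (2 * X.dim + 1), (finrank W.K (W.gr X j) : ℝ) * t ^ j) -
        min 1 (t ^ (2 * X.dim - 2)) * (t - 1) ^ 2 ∧
      ∀ n, ∑ c ∈ range ((pw X n).dim + 1), (numRank ops (pw X n) c : ℝ) * t ^ (2 * c) ≤
        R ^ (n + 1) := by
  classical
  obtain ⟨N, f, hfA, hf0, hff, horth, hsum, hloc⟩ :=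
    Pool.Agent.J4H79.GC.t_ALG W.K (W.H X) (KAlg W X)
  have hfA' : ∀ i, f i ∈ KOp W X X 0 := hfA
  have hfh : ∀ i, IsHom (W.gr X) 0 (f i) := fun i => kop_isHom (hfA' i)
  have hwt : ∀ i, HasWt W X (f i) ((avg W X (f i) : ℚ) : W.K) := fun i =>
    hasWt_of_local hpar (hfA' i) (hff i) (hf0 i) (fun x hx => hloc i x hx)
  set m : Fin N → ℕ → ℕ := fun i j => grk (W.isInternal X) (f i) j with hm
  have hM : ∀ i, finrank W.K (LinearMap.range (f i)) = ∑ j ∈ range (2 * X.dim + 1), m i j :=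
    fun i => finrank_range_eq _ gr_top (hfh i) (hff i)
  have hMpos : ∀ i, 0 < ∑ j ∈ range (2 * X.dim + 1), m i j := by
    intro i
    rw [← hM i, Nat.pos_iff_ne_zero]
    intro h0
    rw [Submodule.finrank_eq_zero] at h0
    exact hf0 i (LinearMap.range_eq_bot.1 h0)
  have havg : ∀ i, ((avg W X (f i) : ℚ) : ℝ) =
      (∑ j ∈ range (2 * X.dim + 1), (j : ℝ) * (m i j : ℝ)) /
        ∑ j ∈ range (2 * X.dim + 1), (m i j : ℝ) := by
    intro i
    rw [avg]
    push_cast
    rfl
  have ham := fun i => Pool.Agent.J4H17.GC.t_AM (2 * X.dim + 1) (m i) t ht (hMpos i)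
  -- some idempotent has two degrees
  have htwo : ∃ i, ∃ j₁ < 2 * X.dim + 1, ∃ j₂ < 2 * X.dim + 1, j₁ ≠ j₂ ∧ m i j₁ ≠ 0 ∧
      m i j₂ ≠ 0 := by
    by_contra hcon
    push Not at hcon
    obtain ⟨j, hj⟩ := hC
    apply hj
    have hz : ∀ i l, m i l = 0 → proj (W.isInternal X) l * f i = 0 := by
      intro i l h0
      have h1 : finrank W.K (LinearMap.range (proj (W.isInternal X) l * f i)) = 0 := h0
      rw [Submodule.finrank_eq_zero] at h1
      exact LinearMap.range_eq_bot.1 h1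
    have hone : ∀ i, proj (W.isInternal X) j * f i ∈ KOp W X X 0 := by
      intro i
      by_cases h0 : m i j = 0
      · rw [hz i j h0]
        exact Submodule.zero_mem _
      · have hj' : j < 2 * X.dim + 1 := by
          by_contra hlt
          apply h0
          have h1 : LinearMap.range (proj (W.isInternal X) j * f i) = ⊥ := by
            rw [eq_bot_iff]
            rintro _ ⟨x, rfl⟩
            have h2 : (proj (W.isInternal X) j * f i) x ∈ W.gr X j := proj_mem _ _ _
            rwa [gr_top j (by omega)] at h2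
          change finrank W.K (LinearMap.range (proj (W.isInternal X) j * f i)) = 0
          rw [h1, finrank_bot]
        have h2 : f i = proj (W.isInternal X) j * f i := by
          conv_lhs => rw [← one_mul (f i), ← scal_one (W.isInternal X),
            scal_eq_sum (W.isInternal X) gr_top, sum_mul]
          rw [Finset.sum_eq_single j]
          · rw [one_smul]
          · intro l hl hlj
            rw [one_smul]
            exact hz i l (hcon i j hj' l (mem_range.1 hl) (Ne.symm hlj) h0)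
          · intro h3
            exact absurd (mem_range.2 hj') h3
        rw [← h2]
        exact hfA' i
    rw [← mul_one (proj (W.isInternal X) j), ← hsum, mul_sum]
    exact Submodule.sum_mem _ fun i _ => hone i
  obtain ⟨i₀, j₁, hj₁, j₂, hj₂, hne, hm₁, hm₂⟩ := htwo
  have hpar2 : ∃ a b : ℕ, a + 2 ≤ b ∧ b ≤ 2 * X.dim ∧ m i₀ a ≠ 0 ∧ m i₀ b ≠ 0 := by
    have hlocp := hloc i₀ _ hpar
    have hpf : par (W.isInternal X) * f i₀ = f i₀ * par (W.isInternal X) :=
      scal_commute _ (hfh i₀) _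
    have hsgn := Pool.Agent.J4H79.GC.t_PAR W.K (W.H X) (f i₀) (par (W.isInternal X)) (hff i₀)
      (hf0 i₀) par_mul_self hpf hlocp
    have hz : ∀ l, m i₀ l ≠ 0 → ∃ y ∈ W.gr X l, y ≠ 0 ∧ f i₀ y = y := by
      intro l hl
      have h1 : LinearMap.range (proj (W.isInternal X) l * f i₀) ≠ ⊥ := by
        intro h0
        apply hl
        change finrank W.K (LinearMap.range (proj (W.isInternal X) l * f i₀)) = 0
        rw [h0, finrank_bot]
      obtain ⟨y, ⟨x, rfl⟩, hy⟩ := (Submodule.ne_bot_iff _).1 h1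
      refine ⟨_, proj_mem _ _ _, hy, ?_⟩
      have hc : proj (W.isInternal X) l * f i₀ = f i₀ * proj (W.isInternal X) l :=
        scal_commute _ (hfh i₀) _
      change (f i₀ * (proj (W.isInternal X) l * f i₀)) x = _
      rw [hc, ← mul_assoc, hff i₀, ← hc]
      rfl
    obtain ⟨y₁, hy₁, hy₁0, hfy₁⟩ := hz j₁ hm₁
    obtain ⟨y₂, hy₂, hy₂0, hfy₂⟩ := hz j₂ hm₂
    have hs : ∀ l (y : W.H X), y ∈ W.gr X l → y ≠ 0 → f i₀ y = y → ∀ s : W.K,
        par (W.isInternal X) * f i₀ = s • f i₀ → ((-1 : W.K) ^ l) = s := by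
      intro l y hy hy0 hfy s hs
      have h1 := LinearMap.congr_fun hs y
      rw [Module.End.mul_apply, LinearMap.smul_apply, hfy, par, scal_apply _ _ hy] at h1
      have h2 : (((-1 : W.K) ^ l) - s) • y = 0 := by rw [sub_smul, h1, sub_self]
      exact sub_eq_zero.1 ((smul_eq_zero.1 h2).resolve_right hy0)
    obtain ⟨s, hs'⟩ : ∃ s : W.K, par (W.isInternal X) * f i₀ = s • f i₀ := by
      rcases hsgn with h | h
      · exact ⟨1, by rw [h, one_smul]⟩
      · exact ⟨-1, by rw [h]; module⟩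
    have h1 : ((-1 : W.K) ^ j₁) = (-1) ^ j₂ := by
      rw [hs j₁ y₁ hy₁ hy₁0 hfy₁ s hs', hs j₂ y₂ hy₂ hy₂0 hfy₂ s hs']
    have h2 : Even j₁ ↔ Even j₂ := by
      rcases Nat.even_or_odd j₁ with e1 | e1 <;> rcases Nat.even_or_odd j₂ with e2 | e2
      · exact ⟨fun _ => e2, fun _ => e1⟩
      · rw [e1.neg_one_pow, e2.neg_one_pow] at h1
        exfalso
        have h3 : (2 : W.K) = 0 := by linear_combination h1
        exact two_ne_zero h3
      · rw [e1.neg_one_pow, e2.neg_one_pow] at h1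
        exfalso
        have h3 : (2 : W.K) = 0 := by linear_combination -h1
        exact two_ne_zero h3
      · exact ⟨fun h => absurd h (Nat.not_even_iff_odd.2 e1),
          fun h => absurd h (Nat.not_even_iff_odd.2 e2)⟩
    rw [Nat.even_iff, Nat.even_iff] at h2
    rcases Nat.lt_or_gt_of_ne hne with h | h
    · exact ⟨j₁, j₂, by omega, by omega, hm₁, hm₂⟩
    · exact ⟨j₂, j₁, by omega, by omega, hm₂, hm₁⟩
  set R : ℝ := ∑ i, (finrank W.K (LinearMap.range (f i)) : ℝ) * t ^ ((avg W X (f i) : ℚ) : ℝ)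
    with hR
  have hle : ∀ i, (finrank W.K (LinearMap.range (f i)) : ℝ) * t ^ ((avg W X (f i) : ℚ) : ℝ) ≤
      ∑ j ∈ range (2 * X.dim + 1), (m i j : ℝ) * t ^ j := by
    intro i
    rw [hM i, havg i]
    push_cast
    exact (ham i).1
  have hlt : (finrank W.K (LinearMap.range (f i₀)) : ℝ) * t ^ ((avg W X (f i₀) : ℚ) : ℝ) ≤
      (∑ j ∈ range (2 * X.dim + 1), (m i₀ j : ℝ) * t ^ j) -
        min 1 (t ^ (2 * X.dim - 2)) * (t - 1) ^ 2 := by
    rw [hM i₀, havg i₀]
    push_cast
    exact hAM X.dim (m i₀) t ht hpar2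
  refine ⟨R, Finset.sum_nonneg fun i _ => by positivity, ?_, fun n => ?_⟩
  · have h1 : ∑ j ∈ range (2 * X.dim + 1), (finrank W.K (W.gr X j) : ℝ) * t ^ j =
        ∑ i, ∑ j ∈ range (2 * X.dim + 1), (m i j : ℝ) * t ^ j := by
      rw [Finset.sum_comm]
      refine Finset.sum_congr rfl fun j _ => ?_
      rw [finrank_gr_eq (W.isInternal X) hfh hff hsum j, ← sum_mul]
      push_cast
      rfl
    rw [h1, hR, ← Finset.add_sum_erase _ _ (mem_univ i₀),
      ← Finset.add_sum_erase _ (fun i => ∑ j ∈ range (2 * X.dim + 1), (m i j : ℝ) * t ^ j)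
        (mem_univ i₀)]
    have h2 : ∑ i ∈ univ.erase i₀, (finrank W.K (LinearMap.range (f i)) : ℝ) *
        t ^ ((avg W X (f i) : ℚ) : ℝ) ≤
        ∑ i ∈ univ.erase i₀, ∑ j ∈ range (2 * X.dim + 1), (m i j : ℝ) * t ^ j :=
      Finset.sum_le_sum fun i _ => hle i
    linarith
  · apply Pool.Agent.J4H17.GC.t_SUM N n _ (fun i => finrank W.K (LinearMap.range (f i)))
      (fun i => ((avg W X (f i) : ℚ) : ℝ)) t (fun c => numRank ops (pw X n) c) ht
    intro c hc
    rw [numRank_eq (W := W) (by omega)]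
    have h1 := kRank_le_words hwt hsum n (c := c) (l := (pw X n).dim - c) (by omega)
    refine le_trans (Nat.cast_le.2 h1) (le_of_eq ?_)
    push_cast
    refine Finset.sum_congr rfl fun w _ => ?_
    have h2 : (∑ j, ((avg W X (f (w j)) : ℚ) : W.K) = 2 * (c : W.K)) ↔
        (∑ j, ((avg W X (f (w j)) : ℚ) : ℝ) = 2 * (c : ℝ)) := by
      constructor
      · intro h
        have h3 : ((∑ j, avg W X (f (w j)) : ℚ) : W.K) = ((2 * c : ℚ) : W.K) := by
          push_cast
          exact h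
        have h4 : (∑ j, avg W X (f (w j)) : ℚ) = 2 * c := by exact_mod_cast h3
        have h5 : ((∑ j, avg W X (f (w j)) : ℚ) : ℝ) = ((2 * c : ℚ) : ℝ) := by rw [h4]
        push_cast at h5
        exact h5
      · intro h
        have h3 : ((∑ j, avg W X (f (w j)) : ℚ) : ℝ) = ((2 * c : ℚ) : ℝ) := by
          push_cast
          exact h
        have h4 : (∑ j, avg W X (f (w j)) : ℚ) = 2 * c := by exact_mod_cast h3
        have h5 : ((∑ j, avg W X (f (w j)) : ℚ) : W.K) = ((2 * c : ℚ) : W.K) := by rw [h4]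
        push_cast at h5
        exact h5
    by_cases h6 : ∑ j, ((avg W X (f (w j)) : ℚ) : ℝ) = 2 * (c : ℝ)
    · rw [if_pos (h2.2 h6), if_pos h6]
    · rw [if_neg (fun h => h6 (h2.1 h)), if_neg h6]

/-- **The effective growth bound.** -/
theorem main_any2 (hAM : S_AM2) (hS : SignStd W X) (hC : ¬ KunnethSpan W X) {t : ℝ}
    (ht : 0 < t) (n : ℕ) : numPoincare ops (pw X n) t ≤
      (poincare W X t - min 1 (t ^ (2 * X.dim - 2)) * (t - 1) ^ 2) ^ (n + 1) := by
  have hpar : par (W.isInternal X) ∈ KOp W X X 0 :=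
    Pool.Agent.J4H44.BM.ROp.kr (par_rop_of_sign hS)
  rw [kunnethSpan_iff] at hC
  push Not at hC
  obtain ⟨j, hj⟩ := hC
  have hcl : IsAlgClosed (baseW W (AlgebraicClosure W.K)).K :=
    inferInstanceAs (IsAlgClosed (AlgebraicClosure W.K))
  obtain ⟨R, h0, h1, h2⟩ := main_closed2 hAM (W := baseW W (AlgebraicClosure W.K)) (X := X)
    (Pool.Agent.R940.par_mem_base _ hpar) ⟨j, fun h => hj (proj_mem_of_base _ h)⟩ ht
  have h3 : R ≤ poincare W X t - min 1 (t ^ (2 * X.dim - 2)) * (t - 1) ^ 2 := by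
    rw [← poincare_base (AlgebraicClosure W.K) t]
    exact h1
  exact (h2 n).trans (pow_le_pow_left₀ h0 h3 _)

end Pool.Agent.J4H47.GC
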