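import Pool.Agent.J4H47.GC.Low
import Pool.Agent.J4H44.BM.Sq
import Pool.Agent.J4H44.BM.NilC

/-!
# The Lefschetz isomorphisms of the powers and their inverses
-/

set_option autoImplicit false

open CategoryTheory AlgebraicGeometry Finset Module

universe u v

namespace Pool.Agent.J4H47.GC

open Pool.Agent.H914 VarClass Obj WeilCohomology Pool.Agent.H447 Pool.Agent.Y163
  Pool.Agent.W534 Pool.Agent.J4H44.BM

variable {k : Type u} [Field k] {𝒱 : VarClass k} {ops : CycleOps 𝒱}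
  {W : WeilCohomology.{u, v} ops} {X Y Z : 𝒱.Obj}

/-- The divisor `∑ D_i` on `X ^ (n + 1)`. -/
noncomputable def pD (ops : CycleOps 𝒱) {X : 𝒱.Obj} (D : X.Cycles) : ∀ n, (pw X n).Cycles
  | 0 => D
  | n + 1 => ops.pull (fst X (pw X n)) D + ops.pull (snd X (pw X n)) (pD ops D n)

lemma pD_cyc {D : X.Cycles} (hD : X.IsCyc 1 D) (n : ℕ) : (pw X n).IsCyc 1 (pD ops D n) := by
  induction n with
  | zero => exact hD
  | succ n ih => exact SmVar.IsCyc.add (ops.pull_mem _ hD) (ops.pull_mem _ ih)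

lemma pD_lef {D : X.Cycles} (hD : X.IsCyc 1 D) (hHL : HardLefschetz W X D)
    (hB : LefschetzB W X D) (n : ℕ) :
    HardLefschetz W (pw X n) (pD ops D n) ∧ LefschetzB W (pw X n) (pD ops D n) := by
  induction n with
  | zero => exact ⟨hHL, hB⟩
  | succ n ih =>
    exact ⟨TH125.Gal.hardLefschetz_prod hD (pD_cyc hD n) hHL ih.1,
      Pool.Agent.X310.Mom.lefschetzB_prod hD (pD_cyc hD n) hHL ih.1 hB ih.2⟩

/-- The Lefschetz isomorphisms and their inverses. -/
lemma exists_lef_inv {D : X.Cycles} (hD : X.IsCyc 1 D) (hHL : HardLefschetz W X D)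
    (hB : LefschetzB W X D) {e : ℕ} (he : e ≤ 2 * X.dim) :
    ∃ θ ∈ KOp W X X (X.dim - e), ∃ θ' ∈ KOp W X X (-(X.dim - e)),
      ∀ a ∈ W.gr X e, θ' (θ a) = a := by
  have key : ∀ i s : ℕ, i + s = X.dim → ∃ w ∈ KOp W X X (-(s : ℤ)),
      ∀ a ∈ W.gr X i, w (W.cl X D ^ s * a) = a := by
    intro i s his
    obtain ⟨c, hc, Z, hZ, h⟩ := leftInvAlg_of_lefschetzB hD hHL hB (i := i) (s := s) (by omega)
    exact ⟨_, KOp.gen (p := c) (by omega) hZ, h⟩
  have hL : ∀ s : ℕ, lop W X D ^ s ∈ KOp W X X s := by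
    intro s
    exact ROp.kr (lop_rop (W := W) hD s)
  rcases Nat.le_total e X.dim with h | h
  · obtain ⟨w, hw, h1⟩ := key e (X.dim - e) (by omega)
    refine ⟨_, KOp.cast (hL (X.dim - e)) (by omega), w, KOp.cast hw (by omega), fun a ha => ?_⟩
    rw [lop_pow_apply]
    exact h1 a ha
  · obtain ⟨w, hw, h1⟩ := key (2 * X.dim - e) (e - X.dim) (by omega)
    refine ⟨w, KOp.cast hw (by omega), _, KOp.cast (hL (e - X.dim)) (by omega), fun a ha => ?_⟩
    obtain ⟨b, hb, rfl⟩ := (hHL (2 * X.dim - e) (by omega)).2 a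
      (by rwa [show 2 * X.dim - (2 * X.dim - e) = e by omega])
    have h2 : (LinearMap.mulLeft W.K (W.cl X D) ^ (X.dim - (2 * X.dim - e))) b =
        W.cl X D ^ (e - X.dim) * b := by
      rw [show X.dim - (2 * X.dim - e) = e - X.dim by omega, ← lop_pow_apply]
      rfl
    rw [h2, h1 b hb, lop_pow_apply]

theorem t_TH : S_TH.{u, v} := by
  intro k _ 𝒱 ops W X D hD hHL hB n e he
  obtain ⟨h1, h2⟩ := pD_lef hD hHL hB n
  exact ⟨ROp.kr (kunnethAt_iff.1 (kunneth_of_lefschetzB (pD_cyc hD n) h1 h2 e)),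
    exists_lef_inv (pD_cyc hD n) h1 h2 he⟩

end Pool.Agent.J4H47.GC
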