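import Pool.Agent.J4H47.GC.Geo
import Pool.Agent.J4H47.GC.Def

/-!
# Words of idempotents and the rank of the intersection form
-/

set_option autoImplicit false

open CategoryTheory AlgebraicGeometry Finset Module

universe u v

namespace Pool.Agent.J4H47.GC

open Pool.Agent.H914 VarClass Obj WeilCohomology Pool.Agent.H447 Pool.Agent.N190.CB
  Pool.Agent.Y163 Pool.Agent.W534

variable {k : Type u} [Field k] {𝒱 : VarClass k} {ops : CycleOps 𝒱}
  {W : WeilCohomology.{u, v} ops} {X Y Z : 𝒱.Obj}

/-- The external product of the operators `f (w 0)`, ..., `f (w n)`. -/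
noncomputable def wop {N : ℕ} (f : Fin N → Module.End W.K (W.H X)) :
    ∀ n, (Fin (n + 1) → Fin N) → Module.End W.K (W.H (pw X n))
  | 0, w => f (w 0)
  | n + 1, w => extOp W (f (w 0)) (wop f n (fun j => w j.succ))

variable {N : ℕ} {f : Fin N → Module.End W.K (W.H X)} {q : Fin N → W.K}

lemma wop_wt (hf : ∀ i, HasWt W X (f i) (q i)) : ∀ (n : ℕ) (w : Fin (n + 1) → Fin N),
    HasWt W (pw X n) (wop f n w) (∑ j, q (w j))
  | 0, w => by
    rw [Fin.sum_univ_one]
    exact hf (w 0)
  | n + 1, w => by
    rw [Fin.sum_univ_succ]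
    exact (hf (w 0)).ext (wop_wt hf n _)

lemma finrank_wop : ∀ (n : ℕ) (w : Fin (n + 1) → Fin N),
    finrank W.K (LinearMap.range (wop f n w)) =
      ∏ j, finrank W.K (LinearMap.range (f (w j)))
  | 0, w => by
    rw [Fin.prod_univ_one]
    rfl
  | n + 1, w => by
    rw [Fin.prod_univ_succ, ← finrank_wop n (fun j => w j.succ)]
    exact finrank_range_extOp _ _

lemma sum_wop (h : ∑ i, f i = 1) : ∀ n : ℕ, ∑ w, wop f n w = 1
  | 0 =>
    (Fintype.sum_equiv (Equiv.funUnique (Fin 1) (Fin N)) (fun w => wop f 0 w) f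
      (fun w => rfl)).trans h
  | n + 1 => by
    have h1 := sum_wop h n
    have h2 : ∑ w : Fin (n + 1 + 1) → Fin N, wop f (n + 1) w =
        ∑ p : Fin N × (Fin (n + 1) → Fin N), extOp W (f p.1) (wop f n p.2) := by
      refine Fintype.sum_equiv (Fin.consEquiv (fun _ => Fin N)).symm _ _ (fun w => ?_)
      rfl
    have h3 : ∀ (a : Module.End W.K (W.H X)) (s : Finset (Fin (n + 1) → Fin N)),
        extOp W a (∑ w ∈ s, wop f n w) = ∑ w ∈ s, extOp W a (wop f n w) := by
      classical
      intro a s
      induction s using Finset.induction_on with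
      | empty => rw [sum_empty, sum_empty, extOp_zero_right]
      | insert x s hx ih => rw [sum_insert hx, sum_insert hx, extOp_add_right, ih]
    have h4 : ∀ (b : Module.End W.K (W.H (pw X n))) (s : Finset (Fin N)),
        extOp W (∑ i ∈ s, f i) b = ∑ i ∈ s, extOp W (f i) b := by
      classical
      intro b s
      induction s using Finset.induction_on with
      | empty => rw [sum_empty, sum_empty, extOp_zero_left]
      | insert x s hx ih => rw [sum_insert hx, sum_insert hx, extOp_add_left, ih]
    rw [h2, Fintype.sum_prod_type]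
    have h5 : ∀ i : Fin N, ∑ w : Fin (n + 1) → Fin N, extOp W (f i) (wop f n w) =
        extOp W (f i) 1 := by
      intro i
      rw [← h3, h1]
    rw [Finset.sum_congr rfl (fun i _ => h5 i), ← h4, h, extOp_one]
    rfl

lemma form_sum {j l : ℕ} {ι : Type*} (s : Finset ι) (g : ι → Module.End W.K (W.H Z)) :
    form W Z j l (∑ i ∈ s, g i) = ∑ i ∈ s, form W Z j l (g i) := by
  apply LinearMap.ext
  intro a
  apply LinearMap.ext
  intro b
  rw [form_apply, LinearMap.sum_apply, LinearMap.sum_apply, LinearMap.sum_apply, sum_mul, map_sum]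
  rfl

lemma finrank_sum_le {K V V' : Type*} [Field K] [AddCommGroup V] [Module K V]
    [AddCommGroup V'] [Module K V'] [Module.Finite K V] {ι : Type*} (s : Finset ι)
    (g : ι → V →ₗ[K] V') : finrank K (LinearMap.range (∑ i ∈ s, g i)) ≤
      ∑ i ∈ s, finrank K (LinearMap.range (g i)) := by
  classical
  induction s using Finset.induction_on with
  | empty =>
    rw [sum_empty, sum_empty, LinearMap.range_zero, finrank_bot]
  | insert x s hx ih =>
    rw [sum_insert hx, sum_insert hx]
    refine le_trans ?_ (Nat.add_le_add_left ih _)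
    refine le_trans (Submodule.finrank_mono (t := LinearMap.range (g x) ⊔
      LinearMap.range (∑ i ∈ s, g i)) ?_) (Submodule.finrank_add_le_finrank_add_finrank _ _)
    rintro _ ⟨y, rfl⟩
    rw [LinearMap.add_apply]
    exact Submodule.add_mem_sup ⟨y, rfl⟩ ⟨y, rfl⟩

lemma rk_le_finrank {j l : ℕ} (g : Module.End W.K (W.H Z)) :
    finrank W.K (LinearMap.range (form W Z j l g)) ≤ finrank W.K (LinearMap.range g) := by
  set Ψ : W.H Z →ₗ[W.K] Module.Dual W.K (spanCycles W Z l) :=
    { toFun := fun a => W.tr Z ∘ₗ LinearMap.mulLeft W.K a ∘ₗ (spanCycles W Z l).subtype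
      map_add' := by intro a b; ext c; simp [add_mul]
      map_smul' := by intro a b; ext c; simp } with hΨ
  have h1 : form W Z j l g = Ψ ∘ₗ (g ∘ₗ (spanCycles W Z j).subtype) := rfl
  rw [h1, LinearMap.range_comp]
  refine le_trans (Submodule.finrank_map_le _ _) ?_
  exact Submodule.finrank_mono (LinearMap.range_comp_le_range _ _)

open Classical in
/-- **The words of weight `2 c` bound the rank in codimension `c`.** -/
theorem kRank_le_words (hf : ∀ i, HasWt W X (f i) (q i)) (h : ∑ i, f i = 1) (n : ℕ) {c l : ℕ}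
    (hcl : c + l = (pw X n).dim) : kRank W (pw X n) c l ≤
      ∑ w : Fin (n + 1) → Fin N, if ∑ j, q (w j) = 2 * (c : W.K) then
        ∏ j, finrank W.K (LinearMap.range (f (w j))) else 0 := by
  rw [← rk_one, rk, ← sum_wop h n, form_sum]
  refine le_trans (finrank_sum_le _ _) (Finset.sum_le_sum fun w _ => ?_)
  split_ifs with hw
  · rw [← finrank_wop]
    exact rk_le_finrank _
  · have h0 : form W (pw X n) c l (wop f n w) = 0 := by
      apply LinearMap.ext
      intro a
      apply LinearMap.ext
      intro b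
      rw [form_apply]
      exact (wop_wt hf n w).tr_eq_zero a.2 b.2 hcl hw
    rw [h0, LinearMap.range_zero, finrank_bot]

end Pool.Agent.J4H47.GC
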